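import Pool.Agent.H315R2.EB.Stubs

/-!
# SUR: surface groups embed in right-angled Coxeter groups of even cycles
-/

namespace Pool.Agent.H315R2.EB

namespace SURaux

/-! ### Recursive products -/

/-- partial products -/
def pr {G : Type*} [Group G] (f : ℕ → G) : ℕ → G
  | 0 => 1
  | n + 1 => pr f n * f n

theorem pr_ofFn {G : Type*} [Group G] (f : ℕ → G) (n : ℕ) :
    (List.ofFn fun i : Fin n => f i).prod = pr f n := by
  induction n with
  | zero => simp [pr]
  | succ n ih =>
    rw [List.ofFn_succ', List.concat_eq_append, List.prod_append]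
    simp only [List.prod_cons, List.prod_nil, mul_one, Fin.val_castSucc, Fin.val_last]
    rw [ih, pr]

/-- commutator -/
def cm {G : Type*} [Group G] (a b : G) : G := a * b * a⁻¹ * b⁻¹

/-! ### The Coxeter matrix -/

/-- adjacency in the cycle `E_0, O_0, E_1, O_1, ..., E_g, O_g` -/
def Cond (g i j : ℕ) : Prop := j = i ∨ j + 1 = i ∨ (i = 0 ∧ j = g)

instance (g i j : ℕ) : Decidable (Cond g i j) := by unfold Cond; infer_instance

/-- entries of the Coxeter matrix -/
def MM (g : ℕ) : Fin (g + 1) ⊕ Fin (g + 1) → Fin (g + 1) ⊕ Fin (g + 1) → ℕ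
  | .inl i, .inl j => if i = j then 1 else 0
  | .inr i, .inr j => if i = j then 1 else 0
  | .inl i, .inr j => if Cond g i j then 2 else 0
  | .inr j, .inl i => if Cond g i j then 2 else 0

theorem MM_symm (g : ℕ) (u v : Fin (g + 1) ⊕ Fin (g + 1)) : MM g u v = MM g v u := by
  rcases u with i | i <;> rcases v with j | j <;> simp only [MM, eq_comm]

theorem MM_diag (g : ℕ) (u : Fin (g + 1) ⊕ Fin (g + 1)) : MM g u u = 1 := by
  rcases u with i | i <;> simp [MM]

theorem MM_off (g : ℕ) (u v : Fin (g + 1) ⊕ Fin (g + 1)) (h : u ≠ v) :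
    MM g u v = 2 ∨ MM g u v = 0 := by
  rcases u with i | i <;> rcases v with j | j <;> simp only [MM]
  · right; rw [if_neg]; rintro rfl; exact h rfl
  · by_cases hc : Cond g i j
    · left; rw [if_pos hc]
    · right; rw [if_neg hc]
  · by_cases hc : Cond g j i
    · left; rw [if_pos hc]
    · right; rw [if_neg hc]
  · right; rw [if_neg]; rintro rfl; exact h rfl

/-- the Coxeter matrix -/
def CMg (g : ℕ) : CoxeterMatrix (Fin (g + 1) ⊕ Fin (g + 1)) where
  M := Matrix.of (MM g)
  isSymm := by
    ext u v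
    exact MM_symm g v u
  diagonal u := MM_diag g u
  off_diagonal u v h := by
    rcases MM_off g u v h with h1 | h1 <;> simp [h1]

/-! ### Involutions -/

theorem word_aux {G : Type*} [Group G] {O0 o o' E0 e : G} (h0 : O0 * O0 = 1) (h1 : o * o = 1)
    (h2 : o' * o' = 1) (h3 : E0 * E0 = 1) (h4 : e * e = 1) (c1 : e * o = o * e)
    (c2 : e * o' = o' * e) :
    cm ((O0 * o) * (E0 * e) * (O0 * o)⁻¹) ((O0 * o') * (O0 * o)⁻¹) =
      O0 * (o * E0 * o) * (o' * E0 * o') * O0 := by
  have i0 : O0⁻¹ = O0 := inv_eq_of_mul_eq_one_left h0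
  have i1 : o⁻¹ = o := inv_eq_of_mul_eq_one_left h1
  have i2 : o'⁻¹ = o' := inv_eq_of_mul_eq_one_left h2
  have i3 : E0⁻¹ = E0 := inv_eq_of_mul_eq_one_left h3
  have i4 : e⁻¹ = e := inv_eq_of_mul_eq_one_left h4
  have k0 : ∀ z, O0 * (O0 * z) = z := fun z => by rw [← mul_assoc, h0, one_mul]
  have k1 : ∀ z, o * (o * z) = z := fun z => by rw [← mul_assoc, h1, one_mul]
  have k2 : ∀ z, o' * (o' * z) = z := fun z => by rw [← mul_assoc, h2, one_mul]
  have k3 : ∀ z, E0 * (E0 * z) = z := fun z => by rw [← mul_assoc, h3, one_mul]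
  have k4 : ∀ z, e * (e * z) = z := fun z => by rw [← mul_assoc, h4, one_mul]
  have d1 : ∀ z, e * (o * z) = o * (e * z) := fun z => by rw [← mul_assoc, c1, mul_assoc]
  have d2 : ∀ z, e * (o' * z) = o' * (e * z) := fun z => by rw [← mul_assoc, c2, mul_assoc]
  unfold cm
  simp only [mul_inv_rev, inv_inv, i0, i1, i2, i3, i4, mul_assoc, k0, k1, k2, k3, k4, d1, d2]

/-! ### The permutations -/

section Perm

variable {S : Type} [Group S]

/-- action of an even generator -/
def EF (u u' : S) : S × Bool × Bool → S × Bool × Bool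
  | (k, false, false) => (k * u⁻¹, true, false)
  | (k, true, false) => (k * u, false, false)
  | (k, false, true) => (k * u'⁻¹, true, true)
  | (k, true, true) => (k * u', false, true)

/-- action of an odd generator -/
def OF (v v' : S) : S × Bool × Bool → S × Bool × Bool
  | (k, false, false) => (k * v⁻¹, false, true)
  | (k, false, true) => (k * v, false, false)
  | (k, true, false) => (k * v'⁻¹, true, true)
  | (k, true, true) => (k * v', true, false)

theorem EF_inv (u u' : S) : Function.Involutive (EF u u') := by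
  rintro ⟨k, _ | _, _ | _⟩ <;> simp [EF]

theorem OF_inv (v v' : S) : Function.Involutive (OF v v') := by
  rintro ⟨k, _ | _, _ | _⟩ <;> simp [OF]

theorem EO_comm {u u' v v' : S} (h : v' * u = u' * v) (z : S × Bool × Bool) :
    EF u u' (OF v v' z) = OF v v' (EF u u' z) := by
  have h1 : v⁻¹ * u'⁻¹ = u⁻¹ * v'⁻¹ := by rw [← mul_inv_rev, ← mul_inv_rev, h]
  have h2 : v * u⁻¹ = u'⁻¹ * v' := by
    rw [mul_inv_eq_iff_eq_mul, mul_assoc, h, inv_mul_cancel_left]
  have h3 : u * v⁻¹ = v'⁻¹ * u' := by
    rw [mul_inv_eq_iff_eq_mul, mul_assoc, ← h, inv_mul_cancel_left]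
  rcases z with ⟨k, _ | _, _ | _⟩ <;> simp only [EF, OF, mul_assoc]
  · rw [h1]
  · rw [h2]
  · rw [h3]
  · rw [h]

/-- the permutation of an even generator -/
def EP (u u' : S) : Equiv.Perm (S × Bool × Bool) := (EF_inv u u').toPerm

/-- the permutation of an odd generator -/
def OP (v v' : S) : Equiv.Perm (S × Bool × Bool) := (OF_inv v v').toPerm

theorem EP_apply (u u' : S) (z : S × Bool × Bool) : EP u u' z = EF u u' z := rfl

theorem OP_apply (v v' : S) (z : S × Bool × Bool) : OP v v' z = OF v v' z := rfl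

theorem EP_sq (u u' : S) : EP u u' * EP u u' = 1 := by
  ext z : 1
  exact EF_inv u u' z

theorem OP_sq (v v' : S) : OP v v' * OP v v' = 1 := by
  ext z : 1
  exact OF_inv v v' z

theorem EO_perm {u u' v v' : S} (h : v' * u = u' * v) :
    EP u u' * OP v v' = OP v v' * EP u u' := by
  ext z : 1
  exact EO_comm h z

end Perm

/-! ### The surface group -/

section Surface

variable (g : ℕ)

/-- the generator `a_i` -/
def sa (i : ℕ) : SurfaceGroup g :=
  if h : i < g then PresentedGroup.of (Sum.inl ⟨i, h⟩) else 1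

/-- the generator `b_i` -/
def sb (i : ℕ) : SurfaceGroup g :=
  if h : i < g then PresentedGroup.of (Sum.inr ⟨i, h⟩) else 1

/-- the partial products of commutators -/
def sc : ℕ → SurfaceGroup g := pr (fun i => cm (sa g i) (sb g i))

/-- `y_i = b_{i-1} ... b_0` -/
def sy : ℕ → SurfaceGroup g
  | 0 => 1
  | n + 1 => sb g n * sy n

/-- `x_i` -/
def sx : ℕ → SurfaceGroup g
  | 0 => 1
  | n + 1 => (sy g n)⁻¹ * sa g n * sy g n

/-- `x'_i` -/
def sx' : ℕ → SurfaceGroup g
  | 0 => 1
  | n + 1 => sc g n * sa g n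

/-- `y'_i` -/
def sy' (n : ℕ) : SurfaceGroup g := sc g n * sy g n

theorem sc_g : sc g g = 1 := by
  unfold sc
  rw [← pr_ofFn]
  have h : PresentedGroup.mk {surfaceRelator g} (surfaceRelator g) = 1 :=
    PresentedGroup.one_of_mem (Set.mem_singleton _)
  have e : (List.ofFn fun i : Fin g => cm (sa g i) (sb g i)).prod =
      PresentedGroup.mk {surfaceRelator g} ((List.ofFn fun i : Fin g =>
        FreeGroup.of (Sum.inl i) * FreeGroup.of (Sum.inr i) *
          (FreeGroup.of (Sum.inl i))⁻¹ * (FreeGroup.of (Sum.inr i))⁻¹).prod) := by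
    rw [map_list_prod, List.map_ofFn]
    congr 1
    congr 1
    funext i
    simp only [Function.comp, map_mul, map_inv, cm, sa, sb, i.isLt, dif_pos, Fin.eta]
    rfl
  rw [e]
  exact h

theorem key (i j : ℕ) (h : Cond g i j) : sy' g j * sx g i = sx' g i * sy g j := by
  rcases h with rfl | h | ⟨rfl, rfl⟩
  · cases j with
    | zero => simp [sy', sx, sx', sy, sc, pr]
    | succ n =>
      have e : sc g (n + 1) = sc g n * cm (sa g n) (sb g n) := rfl
      unfold sy'
      rw [e, sx, sx', sy, cm]
      group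
  · subst h
    unfold sy'
    rw [sx, sx']
    group
  · unfold sy'
    rw [sc_g, sx, sx', one_mul, mul_one]

end Surface

end SURaux

open SURaux in
theorem SUR_proof : St_SUR := by
  intro g hg
  refine ⟨Fin (g + 1) ⊕ Fin (g + 1), inferInstance, inferInstance, CMg g, ?_, ?_⟩
  · intro u v huv
    exact MM_off g u v huv
  set cs := (CMg g).toCoxeterSystem with hcs
  -- the generators
  let E : ℕ → (CMg g).Group := fun i =>
    if h : i < g + 1 then cs.simple (Sum.inl ⟨i, h⟩) else 1
  let O : ℕ → (CMg g).Group := fun i =>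
    if h : i < g + 1 then cs.simple (Sum.inr ⟨i, h⟩) else 1
  have hE : ∀ i, E i * E i = 1 := by
    intro i
    by_cases h : i < g + 1
    · simp only [E, dif_pos h]; exact cs.simple_mul_simple_self _
    · simp only [E, dif_neg h, mul_one]
  have hO : ∀ i, O i * O i = 1 := by
    intro i
    by_cases h : i < g + 1
    · simp only [O, dif_pos h]; exact cs.simple_mul_simple_self _
    · simp only [O, dif_neg h, mul_one]
  have hEO : ∀ i j, Cond g i j → E i * O j = O j * E i := by
    intro i j hc
    by_cases h : i < g + 1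
    · by_cases h' : j < g + 1
      · have h1 := cs.simple_mul_simple_pow (Sum.inl ⟨i, h⟩) (Sum.inr ⟨j, h'⟩)
        have h2 : (CMg g) (Sum.inl ⟨i, h⟩) (Sum.inr ⟨j, h'⟩) = 2 := by
          show MM g (Sum.inl ⟨i, h⟩) (Sum.inr ⟨j, h'⟩) = 2
          simp only [MM]
          rw [if_pos hc]
        rw [h2, pow_two] at h1
        simp only [E, O, dif_pos h, dif_pos h']
        have h3 := cs.simple_mul_simple_self (Sum.inl ⟨i, h⟩)
        have h4 := cs.simple_mul_simple_self (Sum.inr ⟨j, h'⟩)
        set p := cs.simple (Sum.inl ⟨i, h⟩)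
        set q := cs.simple (Sum.inr ⟨j, h'⟩)
        calc p * q = p * q * (p * q * (p * q))⁻¹ := by rw [h1]; simp
          _ = (p * q)⁻¹ := by group
          _ = q⁻¹ * p⁻¹ := by rw [mul_inv_rev]
          _ = q * p := by
            rw [inv_eq_of_mul_eq_one_left h3, inv_eq_of_mul_eq_one_left h4]
      · simp only [O, dif_neg h', mul_one, one_mul]
    · simp only [E, dif_neg h, mul_one, one_mul]
  -- the images of the generators
  let A : ℕ → (CMg g).Group := fun i => (O 0 * O i) * (E 0 * E (i + 1)) * (O 0 * O i)⁻¹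
  let Bb : ℕ → (CMg g).Group := fun i => (O 0 * O (i + 1)) * (O 0 * O i)⁻¹
  have hcm : ∀ i, cm (A i) (Bb i) =
      O 0 * (O i * E 0 * O i) * (O (i + 1) * E 0 * O (i + 1)) * O 0 := by
    intro i
    exact word_aux (hO 0) (hO i) (hO (i + 1)) (hE 0) (hE (i + 1))
      (hEO _ _ (Or.inr (Or.inl rfl))) (hEO _ _ (Or.inl rfl))
  have hpr : ∀ n, pr (fun i => cm (A i) (Bb i)) n =
      O 0 * (O 0 * E 0 * O 0) * (O n * E 0 * O n) * O 0 := by
    intro n
    have k0 : ∀ z, O 0 * (O 0 * z) = z := fun z => by rw [← mul_assoc, hO, one_mul]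
    have k1 : ∀ z, E 0 * (E 0 * z) = z := fun z => by rw [← mul_assoc, hE, one_mul]
    induction n with
    | zero =>
      simp only [pr, mul_assoc, k0, k1, hO]
    | succ n ih =>
      have k2 : ∀ z, O n * (O n * z) = z := fun z => by rw [← mul_assoc, hO, one_mul]
      rw [pr, ih, hcm]
      simp only [mul_assoc, k0, k1, k2]
  have hrel : pr (fun i => cm (A i) (Bb i)) g = 1 := by
    rw [hpr]
    have c1 : E 0 * O 0 = O 0 * E 0 := hEO _ _ (Or.inl rfl)
    have c2 : E 0 * O g = O g * E 0 := hEO _ _ (Or.inr (Or.inr ⟨rfl, rfl⟩))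
    have e1 : O 0 * E 0 * O 0 = E 0 := by
      rw [mul_assoc, c1, ← mul_assoc, hO, one_mul]
    have e2 : O g * E 0 * O g = E 0 := by
      rw [mul_assoc, c2, ← mul_assoc, hO, one_mul]
    rw [e1, e2, mul_assoc (O 0), hE, mul_one, hO]
  let f : Fin g ⊕ Fin g → (CMg g).Group := Sum.elim (fun i => A i) (fun i => Bb i)
  have hf : ∀ r ∈ ({surfaceRelator g} : Set (FreeGroup (Fin g ⊕ Fin g))),
      FreeGroup.lift f r = 1 := by
    intro r hr
    rw [Set.mem_singleton_iff] at hr
    subst hr
    rw [surfaceRelator, map_list_prod, List.map_ofFn]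
    rw [← hrel, ← pr_ofFn]
    congr 1
    congr 1
    funext i
    simp only [Function.comp, map_mul, map_inv, cm, FreeGroup.lift_apply_of, f, Sum.elim_inl,
      Sum.elim_inr]
  refine ⟨PresentedGroup.toGroup hf, ?_⟩
  set φ : SurfaceGroup g →* (CMg g).Group := PresentedGroup.toGroup hf with hφ
  -- the action
  let F : Fin (g + 1) ⊕ Fin (g + 1) → Equiv.Perm (SurfaceGroup g × Bool × Bool) :=
    Sum.elim (fun i => EP (sx g i) (sx' g i)) (fun j => OP (sy g j) (sy' g j))
  have hF : (CMg g).IsLiftable F := by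
    have hcomm2 : ∀ P Q : Equiv.Perm (SurfaceGroup g × Bool × Bool), P * P = 1 → Q * Q = 1 →
        P * Q = Q * P → (P * Q) ^ 2 = 1 := by
      intro P Q hP hQ hc
      rw [pow_two]
      calc P * Q * (P * Q) = P * Q * (Q * P) := by rw [hc]
        _ = P * (Q * Q) * P := by group
        _ = 1 := by rw [hQ, mul_one, hP]
    intro u v
    show (F u * F v) ^ (MM g u v) = 1
    rcases u with i | i <;> rcases v with j | j <;> simp only [MM, F, Sum.elim_inl, Sum.elim_inr]
    · by_cases h : i = j
      · subst h; rw [if_pos rfl, pow_one]; exact EP_sq _ _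
      · rw [if_neg h, pow_zero]
    · by_cases h : Cond g i j
      · rw [if_pos h]
        exact hcomm2 _ _ (EP_sq _ _) (OP_sq _ _) (EO_perm (key g i j h))
      · rw [if_neg h, pow_zero]
    · by_cases h : Cond g j i
      · rw [if_pos h]
        exact hcomm2 _ _ (OP_sq _ _) (EP_sq _ _) (EO_perm (key g j i h)).symm
      · rw [if_neg h, pow_zero]
    · by_cases h : i = j
      · subst h; rw [if_pos rfl, pow_one]; exact OP_sq _ _
      · rw [if_neg h, pow_zero]
  let Ψ : (CMg g).Group →* Equiv.Perm (SurfaceGroup g × Bool × Bool) := cs.lift ⟨F, hF⟩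
  have hΨs : ∀ u, Ψ (cs.simple u) = F u := fun u => cs.lift_apply_simple hF u
  have hΨE : ∀ i, i < g + 1 → Ψ (E i) = EP (sx g i) (sx' g i) := by
    intro i hi
    simp only [E, dif_pos hi]
    rw [hΨs]; rfl
  have hΨO : ∀ i, i < g + 1 → Ψ (O i) = OP (sy g i) (sy' g i) := by
    intro i hi
    simp only [O, dif_pos hi]
    rw [hΨs]; rfl
  -- tracking
  let Tr : (CMg g).Group → SurfaceGroup g → Prop := fun w s =>
    ∀ k, Ψ w (k, false, false) = (k * s⁻¹, false, false)
  have Tmul : ∀ w s w' s', Tr w s → Tr w' s' → Tr (w * w') (s * s') := by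
    intro w s w' s' h h' k
    rw [map_mul, Equiv.Perm.mul_apply, h' k, h, mul_inv_rev, mul_assoc]
  have Tinv : ∀ w s, Tr w s → Tr w⁻¹ s⁻¹ := by
    intro w s h k
    rw [map_inv, Equiv.Perm.inv_eq_iff_eq, h, inv_inv, mul_inv_cancel_right]
  have Tone : Tr 1 1 := by
    intro k
    rw [map_one]; simp
  have Ty : ∀ j, j < g + 1 → Tr (O 0 * O j) (sy g j) := by
    intro j hj k
    rw [map_mul, Equiv.Perm.mul_apply, hΨO j hj, hΨO 0 (by omega), OP_apply, OP_apply]
    simp only [OF, sy, mul_one]
  have Tx : ∀ i, i < g + 1 → Tr (E 0 * E i) (sx g i) := by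
    intro i hi k
    rw [map_mul, Equiv.Perm.mul_apply, hΨE i hi, hΨE 0 (by omega), EP_apply, EP_apply]
    simp only [EF, sx, mul_one]
  have hall : ∀ γ : SurfaceGroup g, Tr (φ γ) γ := by
    intro γ
    have hmem : γ ∈ Subgroup.closure (Set.range (PresentedGroup.of (rels := {surfaceRelator g}))) := by
      rw [PresentedGroup.closure_range_of]; trivial
    induction hmem using Subgroup.closure_induction with
    | mem z hz =>
      obtain ⟨u, rfl⟩ := hz
      rw [hφ, PresentedGroup.toGroup.of]
      rcases u with i | i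
      · have e : (PresentedGroup.of (Sum.inl i) : SurfaceGroup g) =
            sy g i * sx g (i + 1) * (sy g i)⁻¹ := by
          rw [sx]
          have : sa g i = PresentedGroup.of (Sum.inl i) := by
            unfold sa; rw [dif_pos i.isLt]
          rw [this]; group
        rw [e]
        exact Tmul _ _ _ _ (Tmul _ _ _ _ (Ty i (by omega)) (Tx (i + 1) (by omega)))
          (Tinv _ _ (Ty i (by omega)))
      · have e : (PresentedGroup.of (Sum.inr i) : SurfaceGroup g) =
            sy g (i + 1) * (sy g i)⁻¹ := by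
          rw [sy]
          have : sb g i = PresentedGroup.of (Sum.inr i) := by
            unfold sb; rw [dif_pos i.isLt]
          rw [this]; group
        rw [e]
        exact Tmul _ _ _ _ (Ty (i + 1) (by omega)) (Tinv _ _ (Ty i (by omega)))
    | one => rw [map_one]; exact Tone
    | mul x y _ _ hx hy => rw [map_mul]; exact Tmul _ _ _ _ hx hy
    | inv x _ hx => rw [map_inv]; exact Tinv _ _ hx
  rw [injective_iff_map_eq_one]
  intro γ hγ
  have h := hall γ 1
  rw [hγ, map_one] at h
  have h1 := congrArg Prod.fst h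
  simp only [Equiv.Perm.one_apply, one_mul] at h1
  exact inv_eq_one.mp h1.symm

end Pool.Agent.H315R2.EB
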